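import Pool.Agent.Y5.V.Stm3

/-!
Project VL (helper5), job KPW: the chain with damping and general weights.
-/

set_option autoImplicit false

open Set Filter Topology

namespace Pool.Agent.Y417.VL.KPW

open Pool.Agent.Y6.K Pool.Agent.Y5.V

theorem chain_one {A : ℕ → ℝ} (hA : Chain A) (n : ℕ) : 1 ≤ A n := by
  induction n with
  | zero => exact hA.A0
  | succ n ih =>
    have := hA.lo n
    linarith

theorem chain_pos {A : ℕ → ℝ} (hA : Chain A) (n : ℕ) : 0 < A n :=
  lt_of_lt_of_le one_pos (chain_one hA n)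

/-- the weighted dissipation of the mode `n` -/
noncomputable def Dn (A w x : ℕ → ℝ) (n : ℕ) : ℝ := w n * A n * x n ^ 2

/-- the shifted dissipation of the mode `n` -/
noncomputable def Pn (A w x : ℕ → ℝ) (n : ℕ) : ℝ := w (n + 1) * A n * x n ^ 2

theorem Dn_nonneg {A w : ℕ → ℝ} (hA : Chain A) (hw : ∀ n, 0 < w n) (x : ℕ → ℝ) (n : ℕ) :
    0 ≤ Dn A w x n := by
  have := (chain_pos hA n).le
  have := (hw n).le
  unfold Dn
  positivity

theorem cross {A w : ℕ → ℝ} (hw : ∀ n, 0 < w n) {η : ℝ}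
    (hg : ∀ n, w n ^ 2 * A n + 2 * η * w (n + 1) ^ 2 * A (n + 1) ≤
      w (n + 1) * w (n + 2) * A (n + 1)) (hA : Chain A) (x : ℕ → ℝ) (n : ℕ) :
    w n * (A n * x n * x (n + 1)) ≤
      1 / 2 * Pn A w x n + 1 / 2 * Pn A w x (n + 1) - η * Dn A w x (n + 1) := by
  have hp := chain_pos hA n
  have h1 := hw (n + 1)
  have hgn := mul_le_mul_of_nonneg_right (hg n) (sq_nonneg (x (n + 1)))
  unfold Pn Dn
  have h2 : w (n + 1) * (w n * (A n * x n * x (n + 1))) ≤
      1 / 2 * A n * (w (n + 1) ^ 2 * x n ^ 2 + w n ^ 2 * x (n + 1) ^ 2) := by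
    nlinarith [mul_nonneg hp.le (sq_nonneg (w (n + 1) * x n - w n * x (n + 1)))]
  have h3 : w (n + 1) * (w n * (A n * x n * x (n + 1))) ≤
      w (n + 1) * (1 / 2 * (w (n + 1) * A n * x n ^ 2) +
        1 / 2 * (w (n + 1 + 1) * A (n + 1) * x (n + 1) ^ 2) -
        η * (w (n + 1) * A (n + 1) * x (n + 1) ^ 2)) := by
    nlinarith
  exact le_of_mul_le_mul_left h3 h1

/-- the lower bound for the chain -/
theorem low {A w : ℕ → ℝ} (hw : ∀ n, 0 < w n) {η : ℝ} (hη : 0 < η)
    (h0 : 2 * η * w 0 ≤ w 1)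
    (hg : ∀ n, w n ^ 2 * A n + 2 * η * w (n + 1) ^ 2 * A (n + 1) ≤
      w (n + 1) * w (n + 2) * A (n + 1)) (hA : Chain A) (x : ℕ → ℝ) (N : ℕ) :
    η * ∑ n ∈ Finset.range (N + 1), Dn A w x n - Pn A w x N - 1 / 2 * Pn A w x (N + 1) ≤
      ∑ n ∈ Finset.range (N + 1), w n * cvf A x n := by
  have h1 : ∑ n ∈ Finset.range (N + 1), w n * cvf A x n =
      ∑ n ∈ Finset.range (N + 1), w n * (if n = 0 then 0 else A (n - 1) * x (n - 1) ^ 2) -
      ∑ n ∈ Finset.range (N + 1), w n * (A n * x n * x (n + 1)) := by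
    rw [← Finset.sum_sub_distrib]
    refine Finset.sum_congr rfl fun n _ => ?_
    unfold cvf
    ring
  have h2 : ∑ n ∈ Finset.range (N + 1), w n *
      (if n = 0 then 0 else A (n - 1) * x (n - 1) ^ 2) =
      ∑ n ∈ Finset.range N, Pn A w x n := by
    rw [Finset.sum_range_succ']
    simp only [if_true, mul_zero, add_zero]
    refine Finset.sum_congr rfl fun n _ => ?_
    rw [if_neg (Nat.succ_ne_zero n), Nat.add_sub_cancel]
    unfold Pn
    ring
  have h3 : ∑ n ∈ Finset.range (N + 1), w n * (A n * x n * x (n + 1)) ≤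
      ∑ n ∈ Finset.range (N + 1),
        (1 / 2 * Pn A w x n + 1 / 2 * Pn A w x (n + 1) - η * Dn A w x (n + 1)) :=
    Finset.sum_le_sum fun n _ => cross hw hg hA x n
  rw [Finset.sum_sub_distrib, Finset.sum_add_distrib, ← Finset.mul_sum, ← Finset.mul_sum,
    ← Finset.mul_sum] at h3
  have h4 : ∑ n ∈ Finset.range (N + 1), Dn A w x (n + 1) =
      ∑ n ∈ Finset.range (N + 1), Dn A w x n + Dn A w x (N + 1) - Dn A w x 0 := by
    have h5 := Finset.sum_range_succ (fun n => Dn A w x n) (N + 1)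
    have h6 := Finset.sum_range_succ' (fun n => Dn A w x n) (N + 1)
    linarith
  have h4' : ∑ n ∈ Finset.range (N + 1), Pn A w x (n + 1) =
      ∑ n ∈ Finset.range (N + 1), Pn A w x n + Pn A w x (N + 1) - Pn A w x 0 := by
    have h5 := Finset.sum_range_succ (fun n => Pn A w x n) (N + 1)
    have h6 := Finset.sum_range_succ' (fun n => Pn A w x n) (N + 1)
    linarith
  have h7 := Finset.sum_range_succ (fun n => Pn A w x n) N
  have h8 := mul_nonneg hη.le (Dn_nonneg hA hw x (N + 1))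
  have h9 : η * Dn A w x 0 ≤ 1 / 2 * Pn A w x 0 := by
    unfold Dn Pn
    have := mul_le_mul_of_nonneg_right h0
      (mul_nonneg (chain_pos hA 0).le (sq_nonneg (x 0)))
    nlinarith
  rw [h1, h2]
  rw [h4, h4'] at h3
  nlinarith

theorem J_sq {A w : ℕ → ℝ} (hA : Chain A) (hw : ∀ n, 0 < w n) (hs : Summable w)
    (x : ℕ → ℝ) (N : ℕ) :
    (∑ n ∈ Finset.range N, w n * x n) ^ 2 ≤
      (∑' n, w n) * ∑ n ∈ Finset.range N, Dn A w x n := by
  have h1 : (∑ n ∈ Finset.range N, w n * x n) ^ 2 ≤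
      (∑ n ∈ Finset.range N, Dn A w x n) * ∑ n ∈ Finset.range N, w n := by
    apply Finset.sum_sq_le_sum_mul_sum_of_sq_le_mul
    · intro n _
      exact Dn_nonneg hA hw x n
    · intro n _
      exact (hw n).le
    · intro n _
      unfold Dn
      have h2 := mul_le_mul_of_nonneg_right (chain_one hA n)
        (mul_nonneg (sq_nonneg (w n)) (sq_nonneg (x n)))
      nlinarith
  have h2 : ∑ n ∈ Finset.range N, w n ≤ ∑' n, w n :=
    hs.sum_le_tsum _ fun n _ => (hw n).le
  have h3 : 0 ≤ ∑ n ∈ Finset.range N, Dn A w x n :=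
    Finset.sum_nonneg fun n _ => Dn_nonneg hA hw x n
  nlinarith

/-- the damping term -/
theorem damp {A w : ℕ → ℝ} (hA : Chain A) (hw : ∀ n, 0 < w n) {η ε : ℝ} (hη : 0 < η)
    (hε : 0 ≤ ε) (b : ℕ → ℝ) (hb : ∀ n, 0 ≤ b n) (hs : Summable (fun n => w n * (b n ^ 2 / A n)))
    (x g : ℕ → ℝ) (hg : ∀ n, 0 ≤ g n ∧ g n ≤ ε * b n) (N : ℕ) :
    ∑ n ∈ Finset.range N, w n * (g n * x n) ≤
      η / 2 * ∑ n ∈ Finset.range N, Dn A w x n +
        ε ^ 2 / (2 * η) * ∑' n, w n * (b n ^ 2 / A n) := by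
  have h1 : ∀ n ∈ Finset.range N, w n * (g n * x n) ≤
      η / 2 * Dn A w x n + ε ^ 2 / (2 * η) * (w n * (b n ^ 2 / A n)) := by
    intro n _
    have hp := chain_pos hA n
    have h2 : g n * x n ≤ η / 2 * (A n * x n ^ 2) + ε ^ 2 / (2 * η) * (b n ^ 2 / A n) := by
      have h3 : g n * x n ≤ ε * b n * |x n| :=
        (mul_le_mul_of_nonneg_left (le_abs_self _) (hg n).1).trans
          (mul_le_mul_of_nonneg_right (hg n).2 (abs_nonneg _))
      refine h3.trans ?_
      have h4 : ε ^ 2 / (2 * η) * (b n ^ 2 / A n) = (ε * b n) ^ 2 / (2 * η * A n) := by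
        field_simp
      rw [h4, ← sq_abs (x n), ← sub_nonneg]
      have h5 : η / 2 * (A n * |x n| ^ 2) + (ε * b n) ^ 2 / (2 * η * A n) - ε * b n * |x n| =
          (η * A n * |x n| - ε * b n) ^ 2 / (2 * η * A n) := by
        field_simp
        ring
      rw [h5]
      positivity
    have h5 := mul_le_mul_of_nonneg_left h2 (hw n).le
    unfold Dn
    linarith
  refine (Finset.sum_le_sum h1).trans ?_
  rw [Finset.sum_add_distrib, ← Finset.mul_sum, ← Finset.mul_sum]
  have h6 : ∑ n ∈ Finset.range N, w n * (b n ^ 2 / A n) ≤ ∑' n, w n * (b n ^ 2 / A n) :=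
    hs.sum_le_tsum _ fun n _ => mul_nonneg (hw n).le
      (div_nonneg (sq_nonneg _) (chain_pos hA n).le)
  have h7 := mul_le_mul_of_nonneg_left h6 (show 0 ≤ ε ^ 2 / (2 * η) by positivity)
  linarith

theorem t_KPW : S_KPW := by
  intro A hA w hW c b hc hb hsum hbsum
  obtain ⟨η, hη, hgap0, hgap⟩ := hW.gap
  have hw := hW.pos
  set S : ℝ := ∑' n, w n * c n with hS
  set K : ℝ := ∑' n, w n with hK
  set B : ℝ := ∑' n, w n * (b n ^ 2 / A n) with hB
  have hS0 : 0 ≤ S := tsum_nonneg fun n => mul_nonneg (hw n).le (hc n)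
  have hB0 : 0 ≤ B := tsum_nonneg fun n => mul_nonneg (hw n).le
    (div_nonneg (sq_nonneg _) (chain_pos hA n).le)
  have hK1 : 1 ≤ K := by
    have := hW.summ.le_tsum 0 (fun m _ => (hw m).le)
    rwa [hW.one] at this
  have hK0 : 0 < K := lt_of_lt_of_le one_pos hK1
  set ρ : ℝ := η / (32 * K) with hρ
  have hρ0 : 0 < ρ := by positivity
  set ε₀ : ℝ := √(2 * η * ρ / (B + 1)) with hε₀
  have hε0 : 0 < ε₀ := Real.sqrt_pos.2 (by positivity)
  have hε2 : ε₀ ^ 2 / (2 * η) * B ≤ ρ := by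
    rw [hε₀, Real.sq_sqrt (by positivity)]
    have : 2 * η * ρ / (B + 1) / (2 * η) * B = ρ * (B / (B + 1)) := by
      field_simp
    rw [this]
    have h2 : B / (B + 1) ≤ 1 := by
      rw [div_le_one (by positivity)]
      linarith
    nlinarith
  set T₀ : ℝ := K / ρ with hT₀
  have hT0 : 0 < T₀ := by positivity
  have hρT : ρ * T₀ = K := by
    rw [hT₀]
    field_simp
  refine ⟨S ^ 2 / (2 * ρ) + 1, T₀, ε₀, by positivity, hT0, hε0, ?_⟩
  intro κ T gg x f en E hκ hT hgg h1 h2 h3 _ h5 h6 h7 hx0 hx1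
  by_contra hcon
  push Not at hcon
  obtain ⟨M, hM⟩ := h7 1 T₀ hcon
  have hM0 : 0 ≤ M := le_trans (mul_nonneg (pow_nonneg (chain_pos hA 0).le 1) (abs_nonneg _))
    (hM 0 ⟨le_rfl, hT0.le⟩ 0)
  obtain ⟨N, hN⟩ : ∃ N : ℕ, w (N + 1) * M + w (N + 2) * M ≤ ρ := by
    have a1 : Tendsto w atTop (𝓝 0) := hW.summ.tendsto_atTop_zero
    have a2 : Tendsto (fun n => w (n + 1) * M + w (n + 2) * M) atTop (𝓝 (0 * M + 0 * M)) :=
      ((a1.comp (tendsto_add_atTop_nat 1)).mul_const M).add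
        ((a1.comp (tendsto_add_atTop_nat 2)).mul_const M)
    rw [zero_mul, add_zero] at a2
    obtain ⟨N, hN⟩ := (a2.eventually (gt_mem_nhds hρ0)).exists
    exact ⟨N, hN.le⟩
  have hsub : ∀ t ∈ Icc (0 : ℝ) T₀, t ∈ Ico 0 T := fun t ht => ⟨ht.1, lt_of_le_of_lt ht.2 hcon⟩
  choose! e' he' using h5
  set J : ℝ → ℝ := fun t => ∑ n ∈ Finset.range (N + 1), w n * x n t with hJ
  set J' : ℝ → ℝ := fun t => ∑ n ∈ Finset.range (N + 1), w n *
    (cvf A (fun m => x m t) n - gg n * x n t + f n t) with hJ'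
  have hJd : ∀ t ∈ Ico 0 T, HasDerivWithinAt J (J' t) (Ico 0 T) t := by
    intro t ht
    have := HasDerivWithinAt.fun_sum (u := Finset.range (N + 1))
      (fun n (_ : n ∈ Finset.range (N + 1)) => (h1 n t ht).const_mul (w n))
    exact this
  set g : ℝ → ℝ := fun t => en t / 4 - J t with hg
  have hgd : ∀ t ∈ Ico 0 T, HasDerivWithinAt g (e' t / 4 - J' t) (Ico 0 T) t := fun t ht =>
    ((he' t ht).1.div_const 4).sub (hJd t ht)
  -- the bounds
  have hx1' : ∀ t ∈ Ico 0 T, ∀ n, |x n t| ≤ 1 := by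
    intro t ht n
    obtain ⟨a1, a2⟩ := h6 t ht
    have a3 : x n t ^ 2 ≤ 1 := (a1.le_tsum n (fun m _ => sq_nonneg _)).trans a2
    rw [← sq_abs] at a3
    nlinarith [abs_nonneg (x n t)]
  have hPn : ∀ t ∈ Icc (0 : ℝ) T₀, ∀ n, Pn A w (fun m => x m t) n ≤ w (n + 1) * M := by
    intro t ht n
    have a1 := hM t ht n
    have a2 := hx1' t (hsub t ht) n
    rw [pow_one] at a1
    unfold Pn
    have a3 : A n * x n t ^ 2 ≤ M := by
      rw [← sq_abs]
      calc A n * |x n t| ^ 2 = (A n * |x n t|) * |x n t| := by ring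
        _ ≤ M * 1 := mul_le_mul a1 a2 (abs_nonneg _) hM0
        _ = M := mul_one M
    calc w (n + 1) * A n * x n t ^ 2 = w (n + 1) * (A n * x n t ^ 2) := by ring
      _ ≤ _ := mul_le_mul_of_nonneg_left a3 (hw _).le
  have hJ'low : ∀ t ∈ Icc (0 : ℝ) T₀,
      η / 2 * ∑ n ∈ Finset.range (N + 1), Dn A w (fun m => x m t) n - 2 * ρ -
        S * E t ≤ J' t := by
    intro t ht
    have a1 := low hw hη hgap0 hgap hA (fun m => x m t) N
    have a2 := hPn t ht N
    have a3 := hPn t ht (N + 1)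
    have a5 : J' t = ∑ n ∈ Finset.range (N + 1), w n * cvf A (fun m => x m t) n -
        ∑ n ∈ Finset.range (N + 1), w n * (gg n * x n t) +
        ∑ n ∈ Finset.range (N + 1), w n * f n t := by
      rw [hJ', ← Finset.sum_sub_distrib, ← Finset.sum_add_distrib]
      refine Finset.sum_congr rfl fun n _ => ?_
      ring
    have a6 : -(S * E t) ≤ ∑ n ∈ Finset.range (N + 1), w n * f n t := by
      have hE := (h3 t (hsub t ht)).1
      have b1 : ∀ n ∈ Finset.range (N + 1), -(w n * c n * E t) ≤ w n * f n t := by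
        intro n _
        have b2 := (abs_le.1 (h2 n t (hsub t ht))).1
        have b3 : w n * -(c n * E t) ≤ w n * f n t :=
          mul_le_mul_of_nonneg_left b2 (hw n).le
        linarith
      have b4 := Finset.sum_le_sum b1
      rw [Finset.sum_neg_distrib, ← Finset.sum_mul] at b4
      have b5 : ∑ n ∈ Finset.range (N + 1), w n * c n ≤ S :=
        hsum.sum_le_tsum _ (fun n _ => mul_nonneg (hw n).le (hc n))
      have b6 := mul_le_mul_of_nonneg_right b5 hE
      linarith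
    have a8 := damp hA hw hη hε0.le b hb hbsum (fun m => x m t) gg hgg (N + 1)
    rw [a5]
    have a7 : 0 ≤ w (N + 1 + 1) * M := mul_nonneg (hw _).le hM0
    have a9 : w (N + 2) = w (N + 1 + 1) := rfl
    rw [a9] at hN
    have a10 : Pn A w (fun m => x m t) N + 1 / 2 * Pn A w (fun m => x m t) (N + 1) ≤ ρ := by
      linarith
    have a11 : ∑ n ∈ Finset.range (N + 1), w n * (gg n * x n t) ≤
        η / 2 * ∑ n ∈ Finset.range (N + 1), Dn A w (fun m => x m t) n + ρ := by
      refine a8.trans ?_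
      linarith
    linarith
  have hen : ∀ t ∈ Icc (0 : ℝ) T₀, -ρ ≤ -(S * E t) - e' t / 4 := by
    intro t ht
    have a1 := (he' t (hsub t ht)).2
    have a2 : S ^ 2 / (2 * ρ) * E t ^ 2 ≤ κ * E t ^ 2 :=
      mul_le_mul_of_nonneg_right (by linarith) (sq_nonneg _)
    have a3 : 0 ≤ S ^ 2 / (2 * ρ) * E t ^ 2 / 2 - S * E t + ρ := by
      have : S ^ 2 / (2 * ρ) * E t ^ 2 / 2 - S * E t + ρ = (S * E t - 2 * ρ) ^ 2 / (4 * ρ) := by
        field_simp
        ring
      rw [this]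
      positivity
    linarith
  have hcont : ContinuousOn g (Icc 0 T₀) := by
    intro t ht
    exact (hgd t (hsub t ht)).continuousWithinAt.mono fun s hs => hsub s hs
  have hder : ∀ t ∈ Ico (0 : ℝ) T₀, HasDerivWithinAt g (e' t / 4 - J' t) (Ici t) t := by
    intro t ht
    have htT : t ∈ Ico 0 T := hsub t ⟨ht.1, ht.2.le⟩
    refine (hgd t htT).mono_of_mem_nhdsWithin ?_
    exact mem_of_superset (Ico_mem_nhdsGE htT.2) (Ico_subset_Ico_left htT.1)
  have key := image_le_of_deriv_right_lt_deriv_boundary' (f := g) (f' := fun t => e' t / 4 - J' t)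
    (a := 0) (b := T₀) hcont hder (B := fun t => -(3 / 4 + ρ * t))
    (B' := fun _ => -(ρ * 1)) (by
      have a1 : J 0 = 1 := by
        rw [hJ]
        simp only
        rw [Finset.sum_range_succ']
        rw [hx0, hW.one, one_mul]
        have : ∑ k ∈ Finset.range N, w (k + 1) * x (k + 1) 0 = 0 :=
          Finset.sum_eq_zero fun k _ => by rw [hx1, mul_zero]
        rw [this, zero_add]
      have a2 := (h3 0 ⟨le_rfl, hT⟩).2.2
      rw [hg]
      simp only
      rw [a1]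
      linarith) (by fun_prop) (by
      intro t _
      have := ((hasDerivAt_id t).const_mul ρ).const_add (3 / 4) |>.neg
      exact this.hasDerivWithinAt) (by
      intro t ht heq
      have ht' : t ∈ Icc (0 : ℝ) T₀ := ⟨ht.1, ht.2.le⟩
      have a1 := hJ'low t ht'
      have a2 := hen t ht'
      have a3 := (h3 t (hsub t ht')).2.1
      have a4 : 3 / 4 ≤ J t := by
        have a5 : en t / 4 - J t = -(3 / 4 + ρ * t) := heq
        have := mul_nonneg hρ0.le ht.1
        linarith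
      have a6 := J_sq hA hw hW.summ (fun m => x m t) (N + 1)
      have a7 : (3 / 4 : ℝ) ^ 2 ≤ J t ^ 2 := pow_le_pow_left₀ (by norm_num) a4 2
      have a8 : J t ^ 2 ≤ K * ∑ n ∈ Finset.range (N + 1), Dn A w (fun m => x m t) n := a6
      show e' t / 4 - J' t < -(ρ * 1)
      have a9 : 9 * ρ ≤ η / 2 * ∑ n ∈ Finset.range (N + 1), Dn A w (fun m => x m t) n := by
        have b1 : 9 / 16 ≤ K * ∑ n ∈ Finset.range (N + 1), Dn A w (fun m => x m t) n := by
          norm_num at a7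
          linarith
        have b2 : η / (2 * K) * (9 / 16) ≤ η / (2 * K) *
            (K * ∑ n ∈ Finset.range (N + 1), Dn A w (fun m => x m t) n) :=
          mul_le_mul_of_nonneg_left b1 (by positivity)
        have b3 : η / (2 * K) * (9 / 16) = 9 * ρ := by
          rw [hρ]
          field_simp
          norm_num
        have b4 : η / (2 * K) *
            (K * ∑ n ∈ Finset.range (N + 1), Dn A w (fun m => x m t) n) =
            η / 2 * ∑ n ∈ Finset.range (N + 1), Dn A w (fun m => x m t) n := by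
          field_simp
        rw [b3, b4] at b2
        exact b2
      linarith)
  have hfin := key (x := T₀) ⟨hT0.le, le_rfl⟩
  have b1 : J T₀ ≤ K := by
    have a0 := hx1' T₀ (hsub _ ⟨hT0.le, le_rfl⟩)
    refine (Finset.sum_le_sum (fun n _ => ?_)).trans
      (hW.summ.sum_le_tsum (Finset.range (N + 1)) fun n _ => (hw n).le)
    have a1 := (le_abs_self _).trans (a0 n)
    have := mul_le_mul_of_nonneg_left a1 (hw n).le
    linarith
  have b2 := (h3 T₀ (hsub _ ⟨hT0.le, le_rfl⟩)).2.1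
  have b3 : en T₀ / 4 - J T₀ ≤ -(3 / 4 + ρ * T₀) := hfin
  rw [hρT] at b3
  linarith

end Pool.Agent.Y417.VL.KPW
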